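import Pool.Graph.R_pool_sql_team_seeded_64922ed1.Results.MP_485179_nt.RegularPrimeTuples
import Pool.Graph.R_seed8.Y822.CTt
import Pool.Graph.R_seed8.H305R2.MertensE

/-!
Uniform sieve upper bound for the number of prime tuples, for arbitrary shifts.
-/

set_option autoImplicit false

open Finset Filter Topology

namespace Pool.Agent.H75.AS

open Pool.Agent.H387R2.Uni (nuT Adm locT CT piT)
open Pool.Agent.Y822 (PT CT_tail PT_low)
open Pool.Agent.H373R2.T7 (pz mem_pz)
open Pool.Agent.Results.MP_485179_nt.RegularPrimeTuples (nu Admissible density Tuples count)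

/-- the translate of `T` with least element `0` -/
noncomputable def base (T : Finset ℕ) : Finset ℕ := T.image (fun t => t - sInf (T : Set ℕ))

theorem sInf_le_mem {T : Finset ℕ} {t : ℕ} (ht : t ∈ T) : sInf (T : Set ℕ) ≤ t :=
  Nat.sInf_le (mem_coe.2 ht)

theorem base_card (T : Finset ℕ) : (base T).card = T.card := by
  unfold base
  apply card_image_of_injOn
  intro a ha b hb hab
  have h1 := sInf_le_mem (mem_coe.1 ha)
  have h2 := sInf_le_mem (mem_coe.1 hb)
  beta_reduce at hab
  omega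

theorem base_image (T : Finset ℕ) : (base T).image (fun h => h + sInf (T : Set ℕ)) = T := by
  unfold base
  rw [image_image]
  ext t
  rw [mem_image]
  constructor
  · rintro ⟨s, hs, rfl⟩
    have h1 := sInf_le_mem hs
    have e : ((fun h => h + sInf (T : Set ℕ)) ∘ fun t => t - sInf (T : Set ℕ)) s = s := by
      simp only [Function.comp]
      omega
    rw [e]
    exact hs
  · intro ht
    refine ⟨t, ht, ?_⟩
    have h1 := sInf_le_mem ht
    simp only [Function.comp]
    omega

theorem nu_base (T : Finset ℕ) {p : ℕ} (_ : 0 < p) : nu (base T) p = nuT T p := by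
  unfold nu nuT
  obtain ⟨m, hm⟩ : ∃ m : ℕ, m = sInf (T : Set ℕ) := ⟨_, rfl⟩
  have hT := base_image T
  rw [← hm] at hT
  have e : T.image (· % p) = ((base T).image (· % p)).image (fun r => (r + m) % p) := by
    rw [image_image]
    conv_lhs => rw [← hT]
    rw [image_image]
    apply image_congr
    intro h _
    simp only [Function.comp]
    rw [Nat.mod_add_mod]
  rw [e]
  symm
  apply card_image_of_injOn
  intro r hr s hs hrs
  rw [mem_coe, mem_image] at hr hs
  obtain ⟨a, _, rfl⟩ := hr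
  obtain ⟨b, _, rfl⟩ := hs
  beta_reduce at hrs
  have h1 : (a % p + m) ≡ (b % p + m) [MOD p] := hrs
  have h2 : a % p ≡ b % p [MOD p] := Nat.ModEq.add_right_cancel' m h1
  unfold Nat.ModEq at h2
  rw [Nat.mod_mod, Nat.mod_mod] at h2
  exact h2

theorem adm_base {T : Finset ℕ} (hT : Adm T) : Admissible (base T) := by
  intro p hp
  rw [nu_base T hp.pos]
  exact hT p hp

/-- Mertens -/
theorem vz_up : ∀ᶠ z : ℕ in atTop, ∏ p ∈ pz z, (1 - 1 / (p : ℝ)) ≤ 1 / Real.log z := by
  have h1 := Pool.Agent.H305R2.mertens_three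
  have h2 : (1 : ℝ) < Real.exp Real.eulerMascheroniConstant := by
    rw [← Real.exp_zero]
    apply Real.exp_lt_exp.2
    have := Real.one_half_lt_eulerMascheroniConstant
    linarith
  filter_upwards [h1.eventually_const_lt h2, eventually_ge_atTop 2] with z hz hz2
  have hz2' : (2 : ℝ) ≤ z := by exact_mod_cast hz2
  have hlog : 0 < Real.log z := Real.log_pos (by linarith)
  rw [lt_div_iff₀ hlog, one_mul, prod_inv_distrib] at hz
  have hpos : 0 < ∏ p ∈ pz z, (1 - (p : ℝ)⁻¹) := by
    apply prod_pos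
    intro p hp
    have h3 : (2 : ℝ) ≤ p := by exact_mod_cast (mem_pz.1 hp).2.two_le
    rw [sub_pos]
    exact inv_lt_one_of_one_lt₀ (by linarith)
  have h3 : ∏ p ∈ pz z, (1 - 1 / (p : ℝ)) = ∏ p ∈ pz z, (1 - (p : ℝ)⁻¹) := by
    apply prod_congr rfl
    intro p _
    rw [one_div]
  rw [h3, le_div_iff₀ hlog]
  unfold pz at hpos ⊢
  rw [lt_inv_comm₀ hlog hpos] at hz
  rw [← one_div] at hz
  rw [lt_div_iff₀ hlog] at hz
  exact hz.le

/-- **uniform upper bound** -/
theorem pi_up (k : ℕ) (hk : 1 ≤ k) : ∃ B : ℝ, 0 < B ∧ ∃ N₀ : ℕ, ∀ N : ℕ, N₀ ≤ N → ∀ T : Finset ℕ,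
    T.card = k + 1 → (piT T N : ℝ) ≤ B * CT T * (N / Real.log N ^ (k + 1)) := by
  classical
  obtain ⟨r, hr, hres⟩ := Pool.Agent.Results.MP_485179_nt.RegularPrimeTuples.result (k + 1)
    (by omega) 1 (1 / 2) one_pos (by norm_num)
  obtain ⟨h1, h2, -, -⟩ := hres r le_rfl
  obtain ⟨c, hc, hlow⟩ := PT_low k
  have hr0 : (0 : ℝ) < r := by exact_mod_cast (by omega : 0 < r)
  have hr2 : (2 : ℝ) ≤ r := by exact_mod_cast hr
  obtain ⟨z0, hz0⟩ := eventually_atTop.1 vz_up
  obtain ⟨X0, hX0⟩ := eventually_atTop.1 h2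
  -- growth
  have tN : Tendsto (fun N : ℕ => (N : ℝ)) atTop atTop := tendsto_natCast_atTop_atTop
  have g1 : ∀ᶠ N : ℕ in atTop, (max (z0 : ℝ) (2 * ((k : ℝ) + 1) ^ 2) + 4) ≤
      (N : ℝ) ^ (1 / (r : ℝ)) :=
    ((tendsto_rpow_atTop (by positivity)).comp tN).eventually_ge_atTop _
  have g2 : ∀ᶠ N : ℕ in atTop, 2 ≤ Real.log N :=
    (Real.tendsto_log_atTop.comp tN).eventually_ge_atTop _
  have g3 : ∀ᶠ N : ℕ in atTop, Real.log N ^ (k + 1) ≤ (N : ℝ) ^ (1 / 2 : ℝ) := by
    have h := (isLittleO_log_rpow_atTop (show (0 : ℝ) < 1 / (2 * (k + 1)) by positivity)).def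
      (by norm_num : (0 : ℝ) < 1)
    filter_upwards [tN.eventually h, g2, eventually_ge_atTop 1] with N hN hN2 hN1
    have hN0 : (0 : ℝ) ≤ N := Nat.cast_nonneg N
    rw [one_mul, Real.norm_of_nonneg (by linarith), Real.norm_of_nonneg (by positivity)] at hN
    calc Real.log N ^ (k + 1) ≤ ((N : ℝ) ^ ((1 : ℝ) / (2 * (k + 1)))) ^ (k + 1) :=
          pow_le_pow_left₀ (by linarith) hN _
      _ = (N : ℝ) ^ (1 / 2 : ℝ) := by
          rw [← Real.rpow_natCast, ← Real.rpow_mul hN0]
          congr 1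
          push_cast
          field_simp
  obtain ⟨N1, hN1⟩ := eventually_atTop.1 (g1.and (g2.and g3))
  refine ⟨1 / c + 3 * (2 * r) ^ (k + 1), by positivity, max (max N1 X0) 4, fun N hN T hT => ?_⟩
  obtain ⟨f1, f2, f3⟩ := hN1 N (((le_max_left _ _).trans (le_max_left _ _)).trans hN)
  have hNX := hX0 N (((le_max_right _ _).trans (le_max_left _ _)).trans hN)
  have hN4 : 4 ≤ N := (le_max_right _ _).trans hN
  have hN0 : (0 : ℝ) < N := by exact_mod_cast (by omega : 0 < N)
  have hN1r : (1 : ℝ) ≤ N := by exact_mod_cast (by omega : 1 ≤ N)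
  have hL : 0 < Real.log N := by linarith
  have hCT0 : 0 ≤ CT T := Pool.Agent.H387R2.Uni.CT_nonneg T
  by_cases hadm : Adm T
  swap
  · unfold piT
    rw [if_neg hadm]
    push_cast
    positivity
  have hCT := (hlow T hT hadm).2
  obtain ⟨y, hy⟩ : ∃ y : ℝ, y = (N : ℝ) ^ (1 / (r : ℝ)) := ⟨_, rfl⟩
  obtain ⟨z, hz⟩ : ∃ z : ℕ, z = ⌊y⌋₊ := ⟨_, rfl⟩
  rw [← hy] at f1
  have hm1 : (z0 : ℝ) ≤ max (z0 : ℝ) (2 * ((k : ℝ) + 1) ^ 2) := le_max_left _ _
  have hm2 : (2 * ((k : ℝ) + 1) ^ 2) ≤ max (z0 : ℝ) (2 * ((k : ℝ) + 1) ^ 2) := le_max_right _ _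
  have hm3 : (0 : ℝ) ≤ z0 := Nat.cast_nonneg _
  have hy4 : 4 ≤ y := by linarith
  have hzy : (z : ℝ) ≤ y := by rw [hz]; exact Nat.floor_le (by linarith)
  have hzy2 : y < z + 1 := by rw [hz]; exact Nat.lt_floor_add_one y
  have hzz0 : z0 ≤ z := by
    rw [hz]
    apply Nat.le_floor
    linarith
  have hzr : (2 * ((k : ℝ) + 1) ^ 2) + 3 ≤ z := by linarith
  have hz1 : 1 ≤ z := by
    have : (1 : ℝ) ≤ z := by nlinarith
    exact_mod_cast this
  -- the density
  have hdens : density N r (base T) ≤ 2 * (2 * r) ^ (k + 1) * CT T / Real.log N ^ (k + 1) := by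
    have e1 : density N r (base T) = PT T z * (∏ p ∈ pz z, (1 - 1 / (p : ℝ))) ^ (k + 1) := by
      unfold density PT
      rw [← hy, ← hz, ← prod_pow, ← prod_mul_distrib]
      unfold pz
      apply prod_congr rfl
      intro p hp
      have hpp := (mem_filter.1 hp).2
      rw [nu_base T hpp.pos]
      unfold locT
      rw [hT]
      have h3 : (2 : ℝ) ≤ p := by exact_mod_cast hpp.two_le
      have h4 : 0 < 1 - 1 / (p : ℝ) := by
        rw [sub_pos, div_lt_one (by linarith)]
        linarith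
      rw [div_mul_cancel₀ _ (pow_pos h4 _).ne']
    have e2 := hz0 z hzz0
    have e3 := CT_tail T z hz1 (by
      rw [hT]
      have h3 : ((k + 1 : ℕ) : ℝ) ^ 2 ≤ z := by
        push_cast
        nlinarith
      exact_mod_cast h3)
    have e4 : (1 : ℝ) / 2 ≤ 1 - (T.card : ℝ) ^ 2 / z := by
      rw [hT]
      have h3 : ((k + 1 : ℕ) : ℝ) ^ 2 / z ≤ 1 / 2 := by
        rw [div_le_div_iff₀ (by linarith [sq_nonneg ((k : ℝ) + 1)]) (by norm_num)]
        push_cast
        linarith
      linarith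
    have hPT0 := Pool.Agent.Y822.PT_nonneg T z
    have e5 : PT T z ≤ 2 * CT T := by nlinarith
    have hlz : Real.log N / (2 * r) ≤ Real.log z := by
      have h3 : Real.log y = Real.log N / r := by
        rw [hy, Real.log_rpow hN0]
        ring
      have h4 : Real.log y ≤ 2 * Real.log z := by
        have h5 : y ≤ (z : ℝ) ^ 2 := by nlinarith
        calc Real.log y ≤ Real.log ((z : ℝ) ^ 2) := Real.log_le_log (by linarith) h5
          _ = 2 * Real.log z := by rw [Real.log_pow]; norm_num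
      rw [h3] at h4
      have h6 : Real.log N / (2 * r) = Real.log N / r / 2 := by
        rw [div_div]
        congr 1
        ring
      rw [h6]
      linarith
    have hlz0 : 0 < Real.log z := lt_of_lt_of_le (by positivity) hlz
    have hprod0 : 0 ≤ ∏ p ∈ pz z, (1 - 1 / (p : ℝ)) := by
      apply prod_nonneg
      intro p hp
      have h3 : (2 : ℝ) ≤ p := by exact_mod_cast (mem_pz.1 hp).2.two_le
      rw [sub_nonneg, div_le_one (by linarith)]
      linarith
    calc density N r (base T) = PT T z * (∏ p ∈ pz z, (1 - 1 / (p : ℝ))) ^ (k + 1) := e1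
      _ ≤ 2 * CT T * (1 / Real.log z) ^ (k + 1) := by
          apply mul_le_mul e5 (pow_le_pow_left₀ hprod0 e2 _) (pow_nonneg hprod0 _) (by positivity)
      _ ≤ 2 * CT T * (1 / (Real.log N / (2 * r))) ^ (k + 1) := by
          apply mul_le_mul_of_nonneg_left _ (by positivity)
          apply pow_le_pow_left₀ (by positivity)
          apply one_div_le_one_div_of_le (by positivity) hlz
      _ = _ := by
          rw [one_div_div, div_pow]
          ring
  -- comparison with the almost primes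
  have hcnt : (piT T N : ℝ) ≤ y + (count (Tuples N r (base T)) 0 (0 + N) : ℝ) := by
    have h3 : piT T N ≤ z + count (Tuples N r (base T)) 0 (0 + N) := by
      unfold piT
      rw [if_pos hadm]
      have hsub : ((Icc 1 N).filter (fun p => ∀ t ∈ T, (p + (t - sInf (T : Set ℕ))).Prime)) ⊆
          Icc 1 z ∪ (Ioc 0 (0 + N)).filter (fun n => n ∈ Tuples N r (base T)) := by
        intro p hp
        rw [mem_filter, mem_Icc] at hp
        rw [mem_union, mem_Icc, mem_filter, mem_Ioc]
        by_cases hpz : p ≤ z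
        · exact Or.inl ⟨hp.1.1, hpz⟩
        · refine Or.inr ⟨⟨by omega, by omega⟩, ?_⟩
          apply h1
          intro h hh
          unfold base at hh
          rw [mem_image] at hh
          obtain ⟨t, ht, rfl⟩ := hh
          refine ⟨hp.2 t ht, ?_⟩
          rw [← hy]
          have h4 : (z : ℝ) + 1 ≤ p := by exact_mod_cast (by omega : z + 1 ≤ p)
          have h5 : ((p : ℕ) : ℝ) ≤ ((p + (t - sInf (T : Set ℕ)) : ℕ) : ℝ) := by
            exact_mod_cast Nat.le_add_right _ _
          linarith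
      calc _ ≤ (Icc 1 z ∪ (Ioc 0 (0 + N)).filter (fun n => n ∈ Tuples N r (base T))).card :=
            card_le_card hsub
        _ ≤ (Icc 1 z).card + ((Ioc 0 (0 + N)).filter (fun n => n ∈ Tuples N r (base T))).card :=
            card_union_le _ _
        _ = z + count (Tuples N r (base T)) 0 (0 + N) := by
            rw [Nat.card_Icc, Nat.add_sub_cancel]
            unfold count
            rfl
    have h6 : (piT T N : ℝ) ≤ z + (count (Tuples N r (base T)) 0 (0 + N) : ℝ) := by
      exact_mod_cast h3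
    linarith
  have habs := hNX (base T) (by rw [base_card, hT]) (adm_base hadm) 0 N (by
    calc (N : ℝ) ^ (1 / 2 : ℝ) ≤ (N : ℝ) ^ (1 : ℝ) :=
          Real.rpow_le_rpow_of_exponent_le hN1r (by norm_num)
      _ = N := Real.rpow_one _)
  have habs2 := (abs_le.1 habs).2
  have hyN : y ≤ (N : ℝ) ^ (1 / 2 : ℝ) := by
    rw [hy]
    apply Real.rpow_le_rpow_of_exponent_le hN1r
    exact one_div_le_one_div_of_le (by norm_num) hr2
  have hsq : (N : ℝ) ^ (1 / 2 : ℝ) * (N : ℝ) ^ (1 / 2 : ℝ) = N := by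
    rw [← Real.rpow_add hN0]
    norm_num
  have hNL : (N : ℝ) ^ (1 / 2 : ℝ) ≤ N / Real.log N ^ (k + 1) := by
    rw [le_div_iff₀ (by positivity)]
    calc (N : ℝ) ^ (1 / 2 : ℝ) * Real.log N ^ (k + 1) ≤
          (N : ℝ) ^ (1 / 2 : ℝ) * (N : ℝ) ^ (1 / 2 : ℝ) :=
          mul_le_mul_of_nonneg_left f3 (by positivity)
      _ = N := hsq
  have hV0 : 0 ≤ N / Real.log N ^ (k + 1) := by positivity
  have hfirst : y ≤ 1 / c * CT T * (N / Real.log N ^ (k + 1)) := by
    calc y ≤ 1 * (N / Real.log N ^ (k + 1)) := by linarith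
      _ ≤ 1 / c * CT T * (N / Real.log N ^ (k + 1)) := by
          apply mul_le_mul_of_nonneg_right _ hV0
          rw [one_div, inv_mul_eq_div, le_div_iff₀ hc, one_mul]
          exact hCT
  have hsecond : (count (Tuples N r (base T)) 0 (0 + N) : ℝ) ≤
      3 * (2 * r) ^ (k + 1) * CT T * (N / Real.log N ^ (k + 1)) := by
    calc (count (Tuples N r (base T)) 0 (0 + N) : ℝ)
        ≤ 3 / 2 * (N * density N r (base T)) := by linarith
      _ ≤ 3 / 2 * (N * (2 * (2 * r) ^ (k + 1) * CT T / Real.log N ^ (k + 1))) := by gcongr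
      _ = _ := by ring
  calc (piT T N : ℝ) ≤ y + (count (Tuples N r (base T)) 0 (0 + N) : ℝ) := hcnt
    _ ≤ 1 / c * CT T * (N / Real.log N ^ (k + 1)) +
        3 * (2 * r) ^ (k + 1) * CT T * (N / Real.log N ^ (k + 1)) := add_le_add hfirst hsecond
    _ = _ := by ring

end Pool.Agent.H75.AS
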